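import Mathlib
import Pool.Agent.Helper342.Par.GenExt

set_option autoImplicit false

namespace Pool.Agent.Results.MP_b9b9c0_an.SecondTermNormal

open Metric Set Filter Topology MeasureTheory Pool.Agent.Helper342.Par

/-- The family `N_A` on the open Euclidean unit ball of `ℂ^n`. -/
def familyN {n : ℕ} (A : EuclideanSpace ℂ (Fin n) →L[ℂ] EuclideanSpace ℂ (Fin n)) :
    Set (EuclideanSpace ℂ (Fin n) → EuclideanSpace ℂ (Fin n)) :=
  {h | DifferentiableOn ℂ h (ball 0 1) ∧ h 0 = 0 ∧ fderiv ℂ h 0 = A ∧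
    ∀ z ∈ ball (0 : EuclideanSpace ℂ (Fin n)) 1, z ≠ 0 → 0 < (inner ℂ z (h z)).re}

/-- A Herglotz vector field with linear part `A`: `h(·,t)` is in `N_A` for almost every `t ≥ 0`
and `h(z,·)` is measurable on `[0,∞)` for every `z` in the ball. -/
structure IsHerglotz {n : ℕ} (A : EuclideanSpace ℂ (Fin n) →L[ℂ] EuclideanSpace ℂ (Fin n))
    (h : EuclideanSpace ℂ (Fin n) → ℝ → EuclideanSpace ℂ (Fin n)) : Prop where
  mem : ∀ᵐ t : ℝ, 0 ≤ t → (fun z => h z t) ∈ familyN A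
  meas : ∀ z ∈ ball (0 : EuclideanSpace ℂ (Fin n)) 1, Measurable ((Ici (0 : ℝ)).restrict (h z))

/-- `v` is the solution on `[0,∞)` of `v' = -h(v,t)` (almost every `t`), `v(0) = z`, with values in
the ball, in integral form. -/
structure IsSolution {n : ℕ} (h : EuclideanSpace ℂ (Fin n) → ℝ → EuclideanSpace ℂ (Fin n))
    (z : EuclideanSpace ℂ (Fin n)) (v : ℝ → EuclideanSpace ℂ (Fin n)) : Prop where
  mem : ∀ t, 0 ≤ t → v t ∈ ball (0 : EuclideanSpace ℂ (Fin n)) 1
  integrable : ∀ t, 0 ≤ t → IntervalIntegrable (fun s => h (v s) s) volume 0 t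
  eq : ∀ t, 0 ≤ t → v t = z - ∫ s in (0 : ℝ)..t, h (v s) s

/-- The class `S_A^0` of normalized maps with `A`-parametric representation. -/
def paramClass {n : ℕ} (A : EuclideanSpace ℂ (Fin n) →L[ℂ] EuclideanSpace ℂ (Fin n)) :
    Set (EuclideanSpace ℂ (Fin n) → EuclideanSpace ℂ (Fin n)) :=
  {f | DifferentiableOn ℂ f (ball 0 1) ∧ f 0 = 0 ∧
    fderiv ℂ f 0 = ContinuousLinearMap.id ℂ (EuclideanSpace ℂ (Fin n)) ∧
    ∃ h v : EuclideanSpace ℂ (Fin n) → ℝ → EuclideanSpace ℂ (Fin n), IsHerglotz A h ∧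
      (∀ z ∈ ball (0 : EuclideanSpace ℂ (Fin n)) 1, IsSolution h z (v z)) ∧
      TendstoLocallyUniformlyOn (fun (t : ℝ) z => NormedSpace.exp ((t : ℂ) • A) (v z t)) f atTop
        (ball 0 1)}

/-- The second order term `P_2(z) = (1/2) D^2 f(0)(z,z)`. -/
noncomputable def quadPart {n : ℕ} (f : EuclideanSpace ℂ (Fin n) → EuclideanSpace ℂ (Fin n))
    (z : EuclideanSpace ℂ (Fin n)) : EuclideanSpace ℂ (Fin n) :=
  (1 / 2 : ℂ) • iteratedFDeriv ℂ 2 f 0 ![z, z]

/-- `m(A)`: the minimum of `Re ⟨Az,z⟩` over unit vectors. -/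
noncomputable def mMin {n : ℕ} (A : EuclideanSpace ℂ (Fin n) →L[ℂ] EuclideanSpace ℂ (Fin n)) : ℝ :=
  sInf {x | ∃ z : EuclideanSpace ℂ (Fin n), ‖z‖ = 1 ∧ x = (inner ℂ z (A z)).re}

/-- The maximum of `Re ⟨Az,z⟩` over unit vectors. -/
noncomputable def wMax {n : ℕ} (A : EuclideanSpace ℂ (Fin n) →L[ℂ] EuclideanSpace ℂ (Fin n)) : ℝ :=
  sSup {x | ∃ z : EuclideanSpace ℂ (Fin n), ‖z‖ = 1 ∧ x = (inner ℂ z (A z)).re}

/-- `k_+(A)`: the largest real part of an eigenvalue. -/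
noncomputable def kPlus {n : ℕ} (A : EuclideanSpace ℂ (Fin n) →L[ℂ] EuclideanSpace ℂ (Fin n)) : ℝ :=
  sSup {x | ∃ μ : ℂ, Module.End.HasEigenvalue
    (A : EuclideanSpace ℂ (Fin n) →ₗ[ℂ] EuclideanSpace ℂ (Fin n)) μ ∧ x = μ.re}

/-- The number `s` in `(0,1)` with `(k - m) s^2 + (2 m + k) s = m`. -/
noncomputable def sParam (m k : ℝ) : ℝ := 2 * m / (2 * m + k + Real.sqrt (k * (k + 8 * m)))

/-- The constant `2 m / ((2 m - k) √s (1 + s))`. -/
noncomputable def bound (m k : ℝ) : ℝ :=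
  2 * m / ((2 * m - k) * (Real.sqrt (sParam m k) * (1 + sParam m k)))

variable {n : ℕ}

theorem bound_eq (m k : ℝ) : bound m k = sharpConst m k := rfl

/-- The value for `A = I`. -/
theorem bound_one : bound 1 1 = 3 * Real.sqrt 3 / 2 := by
  have h1 : Real.sqrt (1 * (1 + 8 * 1)) = 3 := by
    rw [show (1 : ℝ) * (1 + 8 * 1) = 3 ^ 2 by norm_num]
    exact Real.sqrt_sq (by norm_num)
  have h2 : sParam 1 1 = 3⁻¹ := by
    rw [sParam, h1]; norm_num
  have h3 : 0 < Real.sqrt 3 := Real.sqrt_pos.2 (by norm_num)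
  have h4 : Real.sqrt 3 ^ 2 = 3 := Real.sq_sqrt (by norm_num)
  rw [bound, h2, Real.sqrt_inv]
  field_simp
  nlinarith

/-- The relation with the number `a_0` of the problem: `(2 m - k) * bound m k` is the largest
`a > 0` with `k x^2 + m y^2 - a x y^2 ≥ 0` for all `x, y ≥ 0` with `x^2 + y^2 ≤ 1`. -/
theorem isGreatest_a0 {m k : ℝ} (hm : 0 < m) (hk : m ≤ k) (hk2 : k < 2 * m) :
    IsGreatest {a : ℝ | 0 < a ∧ ∀ x y : ℝ, 0 ≤ x → 0 ≤ y → x ^ 2 + y ^ 2 ≤ 1 →
      0 ≤ k * x ^ 2 + m * y ^ 2 - a * x * y ^ 2} ((2 * m - k) * bound m k) := by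
  rw [bound_eq]
  have hk0 : 0 < k := hm.trans_le hk
  have h2 : 0 < 2 * m - k := by linarith
  have hC := sharpConst_pos hm hk hk2
  refine ⟨⟨by positivity, ?_⟩, ?_⟩
  · intro x y hx hy hxy
    rcases (by positivity : 0 ≤ x ^ 2 + y ^ 2).eq_or_lt with h | h
    · have hx0 : x = 0 := by nlinarith [sq_nonneg x, sq_nonneg y]
      have hy0 : y = 0 := by nlinarith [sq_nonneg x, sq_nonneg y]
      simp [hx0, hy0]
    · have h3 := scale_form_le hm hk hk2 hx h
      have h4 : Real.sqrt (x ^ 2 + y ^ 2) ≤ 1 := by rw [Real.sqrt_le_one]; exact hxy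
      have h5 : 0 ≤ k * x ^ 2 + m * y ^ 2 := by positivity
      have h6 : Real.sqrt (x ^ 2 + y ^ 2) * (k * x ^ 2 + m * y ^ 2) ≤
          1 * (k * x ^ 2 + m * y ^ 2) := by gcongr
      linarith
  · rintro a ⟨_, ha⟩
    obtain ⟨hs0, hs⟩ := sPar_spec hm hk
    have hs1 := sPar_lt_one hm hk
    set s := sPar m k with hsdef
    have h1s : 0 < 1 - s := by linarith
    have hg0 : 0 < Real.sqrt s := Real.sqrt_pos.2 hs0
    have hg2 : Real.sqrt s ^ 2 = s := Real.sq_sqrt hs0.le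
    have hy2 : Real.sqrt (1 - s) ^ 2 = 1 - s := Real.sq_sqrt h1s.le
    have h3 := ha (Real.sqrt s) (Real.sqrt (1 - s)) (Real.sqrt_nonneg _) (Real.sqrt_nonneg _)
      (by rw [hg2, hy2]; linarith)
    rw [hg2, hy2] at h3
    have h4 : (2 * m - k) * sharpConst m k * (Real.sqrt s * (1 + s)) = 2 * m := by
      rw [sharpConst, ← hsdef]
      field_simp
    have h5 : (k * s + m * (1 - s)) * (1 + s) = 2 * m * (1 - s) := by linear_combination hs
    have h6 : a * (Real.sqrt s * (1 - s) * (1 + s)) ≤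
        (2 * m - k) * sharpConst m k * (Real.sqrt s * (1 - s) * (1 + s)) := by
      calc a * (Real.sqrt s * (1 - s) * (1 + s)) = (a * Real.sqrt s * (1 - s)) * (1 + s) := by ring
        _ ≤ (k * s + m * (1 - s)) * (1 + s) := by
          apply mul_le_mul_of_nonneg_right _ (by linarith)
          linarith
        _ = 2 * m * (1 - s) := h5
        _ = ((2 * m - k) * sharpConst m k * (Real.sqrt s * (1 + s))) * (1 - s) := by rw [h4]
        _ = _ := by ring
    exact le_of_mul_le_mul_right h6 (by positivity)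

theorem quadPart_eq {f : EuclideanSpace ℂ (Fin n) → EuclideanSpace ℂ (Fin n)}
    (hf : DifferentiableOn ℂ f (ball 0 1)) (z : EuclideanSpace ℂ (Fin n)) :
    quadPart f z = tc 2 (fun ζ : ℂ => f (ζ • z)) := by
  rw [tc_slice one_pos hf, quadPart]
  congr 1
  · norm_num [Nat.factorial]
  · congr 1
    ext i : 1
    fin_cases i <;> rfl

/-- Modification of a Herglotz field on a null set. -/
theorem sol_of_isSolution {A : EuclideanSpace ℂ (Fin n) →L[ℂ] EuclideanSpace ℂ (Fin n)} {m M : ℝ}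
    (hA : Adm A m M) {h v : EuclideanSpace ℂ (Fin n) → ℝ → EuclideanSpace ℂ (Fin n)}
    (hh : IsHerglotz A h)
    (hv : ∀ z ∈ ball (0 : EuclideanSpace ℂ (Fin n)) 1, IsSolution h z (v z)) :
    ∃ g : EuclideanSpace ℂ (Fin n) → ℝ → EuclideanSpace ℂ (Fin n),
      (∀ s, CaraA A (fun w => g w s)) ∧
      ∀ z ∈ ball (0 : EuclideanSpace ℂ (Fin n)) 1, Sol g z (v z) := by
  classical
  have hid : CaraA A (fun w : EuclideanSpace ℂ (Fin n) => A w) := by
    refine ⟨A.differentiable.differentiableOn, map_zero A, A.fderiv, ?_⟩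
    intro z _ hz0
    have h1 := hA.ge z
    have h2 := hA.pos
    have : 0 < ‖z‖ := norm_pos_iff.2 hz0
    have : 0 < m * ‖z‖ ^ 2 := by positivity
    linarith
  set g : EuclideanSpace ℂ (Fin n) → ℝ → EuclideanSpace ℂ (Fin n) := fun w s =>
    if (fun z => h z s) ∈ familyN A then h w s else A w with hg
  refine ⟨g, ?_, ?_⟩
  · intro s
    by_cases hs : (fun z => h z s) ∈ familyN A
    · have : (fun w => g w s) = fun w => h w s := by
        ext1 w
        simp only [hg, if_pos hs]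
      rw [this]
      exact ⟨hs.1, hs.2.1, hs.2.2.1, hs.2.2.2⟩
    · have : (fun w => g w s) = fun w => A w := by
        ext1 w
        simp only [hg, if_neg hs]
      rw [this]
      exact hid
  · intro z hz
    have hs := hv z hz
    have hae : ∀ t : ℝ, 0 ≤ t → (fun s => h (v z s) s) =ᵐ[volume.restrict (Ioc 0 t)]
        fun s => g (v z s) s := by
      intro t _
      rw [EventuallyEq, ae_restrict_iff' measurableSet_Ioc]
      filter_upwards [hh.mem] with s hs hsm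
      simp only [hg, if_pos (hs hsm.1.le)]
    refine ⟨fun t ht => by simpa using hs.mem t ht, ?_, ?_⟩
    · intro t ht
      have := hs.integrable t ht
      rw [intervalIntegrable_iff_integrableOn_Ioc_of_le ht] at this ⊢
      exact this.congr (hae t ht)
    · intro t ht
      rw [hs.eq t ht, intervalIntegral.integral_of_le ht, intervalIntegral.integral_of_le ht,
        integral_congr_ae (hae t ht)]

/-- The upper bound. -/
theorem norm_quadPart_le {A : EuclideanSpace ℂ (Fin n) →L[ℂ] EuclideanSpace ℂ (Fin n)} {m M : ℝ}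
    (hA : Adm A m M) (hM2 : M < 2 * m) {f : EuclideanSpace ℂ (Fin n) → EuclideanSpace ℂ (Fin n)}
    (hf : f ∈ paramClass A) {u : EuclideanSpace ℂ (Fin n)} (hu : ‖u‖ = 1) :
    ‖quadPart f u‖ ≤ bound m M := by
  obtain ⟨hd, hf0, hf1, h, v, hh, hv, hlim⟩ := hf
  obtain ⟨g, hg, hgv⟩ := sol_of_isSolution hA hh hv
  obtain ⟨hs0, hs⟩ := sPar_spec hA.pos hA.mM
  have hs1 := sPar_lt_one hA.pos hA.mM
  have h2m : 0 < 2 * m - M := by linarith
  set κ : ℝ := m / (2 * m - M) with hκdef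
  have hκ : κ * (2 * m - M) = m := div_mul_cancel₀ _ h2m.ne'
  have hspec := sharpConst_spec hA.pos hA.mM hM2 hκ
  rw [bound_eq]
  set s := sPar m M with hsdef
  set C : ℝ := sharpConst m M with hC
  have hC0 : 0 < C := sharpConst_pos hA.pos hA.mM hM2
  set γ : ℝ := Real.sqrt s * (1 - s) with hγ
  have hγ0 : 0 < γ := by
    have : 0 < Real.sqrt s := Real.sqrt_pos.2 hs0
    have : 0 < 1 - s := by linarith
    positivity
  set L : ℝ := (C3 A M + 1600 * (M + ‖A‖) * (κ * (1 + s) + s)) / (3 * m - M) with hL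
  -- estimate for `f`
  have hest : ∀ z : EuclideanSpace ℂ (Fin n), ‖z‖ ≤ 1 / 8 →
      γ * ‖f z - z‖ ≤ γ * C * ‖z‖ ^ 2 + L * (‖z‖ / (1 - ‖z‖) ^ 2) ^ 3 := by
    intro z hz
    have hzb : z ∈ ball (0 : EuclideanSpace ℂ (Fin n)) 1 := by
      rw [mem_ball_zero_iff]; linarith
    have h1 := hlim.tendsto_at hzb
    have h2 := limit_est hA hM2 hs0 hs hκ (hgv z hzb) hg hz h1
    rw [hspec] at h2
    exact h2
  rw [quadPart_eq hd]
  set F : ℂ → EuclideanSpace ℂ (Fin n) := fun ζ => f (ζ • u) with hF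
  have hmem : ∀ ζ ∈ ball (0 : ℂ) 1, ζ • u ∈ ball (0 : EuclideanSpace ℂ (Fin n)) 1 := by
    intro ζ hζ
    rw [mem_ball_zero_iff] at *
    rw [norm_smul, hu, mul_one]
    exact hζ
  have hFd : DifferentiableOn ℂ F (ball 0 1) := hd.comp (by fun_prop) hmem
  have hF0 : F 0 = 0 := by simp [hF, hf0]
  have hF1 : HasDerivAt F u 0 := by
    have h1 : HasFDerivAt f (ContinuousLinearMap.id ℂ (EuclideanSpace ℂ (Fin n)))
        ((0 : ℂ) • u) := by
      rw [zero_smul, ← hf1]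
      exact (hd.differentiableAt (ball_mem_nhds _ one_pos)).hasFDerivAt
    have h2 : HasDerivAt (fun ζ : ℂ => ζ • u) ((1 : ℂ) • u) 0 :=
      (hasDerivAt_id (0 : ℂ)).smul_const u
    have h3 : HasDerivAt F ((ContinuousLinearMap.id ℂ (EuclideanSpace ℂ (Fin n))) ((1 : ℂ) • u))
        0 := h1.comp_hasDerivAt 0 h2
    simpa using h3
  have hd1 : DifferentiableOn ℂ (dslope F 0) (ball 0 1) :=
    (Complex.differentiableOn_dslope (ball_mem_nhds _ one_pos)).2 hFd
  obtain ⟨R, hR, B, -, hsub, hB⟩ := exists_bound isOpen_ball hd1 (mem_ball_self one_pos)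
  obtain ⟨hder, -⟩ := curve_third hR (hFd.mono hsub) hF0 hF1 hB
  have h4 := hder.tendsto_slope_zero
  have h5 : Tendsto (fun ρ : ℝ => (ρ : ℂ)) (𝓝[>] 0) (𝓝[≠] (0 : ℂ)) := by
    rw [tendsto_nhdsWithin_iff]
    constructor
    · have := (Complex.continuous_ofReal.tendsto (0 : ℝ)).mono_left
        (nhdsWithin_le_nhds (s := Ioi (0 : ℝ)))
      simpa using this
    · filter_upwards [self_mem_nhdsWithin] with ρ hρ
      have : (0 : ℝ) < ρ := hρ
      simp [this.ne']
  have h6 := ((h4.comp h5).norm).const_mul γ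
  have h7 : Tendsto (fun ρ : ℝ => γ * C + L * ρ * (1 / (1 - ρ) ^ 2) ^ 3) (𝓝[>] 0)
      (𝓝 (γ * C)) := by
    have h8 : ContinuousAt (fun ρ : ℝ => γ * C + L * ρ * (1 / (1 - ρ) ^ 2) ^ 3) 0 := by
      have h9 : ContinuousAt (fun ρ : ℝ => 1 / (1 - ρ) ^ 2) 0 := by
        apply ContinuousAt.div (by fun_prop) (by fun_prop)
        norm_num
      exact continuousAt_const.add ((continuousAt_const.mul continuousAt_id).mul (h9.pow 3))
    have := h8.tendsto.mono_left (nhdsWithin_le_nhds (s := Ioi (0 : ℝ)))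
    simpa using this
  have h10 : γ * ‖tc 2 F‖ ≤ γ * C := by
    refine le_of_tendsto_of_tendsto h6 h7 ?_
    filter_upwards [Ioo_mem_nhdsGT (show (0 : ℝ) < 1 / 8 by norm_num)] with ρ hρ
    have hρ0 : (0 : ℝ) < ρ := hρ.1
    have hρc : (ρ : ℂ) ≠ 0 := by exact_mod_cast hρ0.ne'
    have hnorm : ‖(ρ : ℂ) • u‖ = ρ := by
      rw [norm_smul, hu, mul_one, Complex.norm_real, Real.norm_of_nonneg hρ0.le]
    have h8 := hest ((ρ : ℂ) • u) (by rw [hnorm]; exact hρ.2.le)
    rw [hnorm] at h8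
    have h9 : ((ρ : ℂ)⁻¹ • (dslope F 0 (0 + (ρ : ℂ)) - dslope F 0 0)) =
        ((ρ : ℂ) ^ 2)⁻¹ • (f ((ρ : ℂ) • u) - (ρ : ℂ) • u) := by
      rw [zero_add, dslope_same, hF1.deriv, dslope_of_ne _ hρc, slope_def_module, sub_zero, hF0,
        sub_zero, smul_sub, smul_sub, smul_smul, smul_smul]
      congr 2
      · rw [sq, mul_inv]
      · field_simp
    simp only [Function.comp_apply]
    rw [h9, norm_smul, norm_inv, norm_pow, Complex.norm_real, Real.norm_of_nonneg hρ0.le]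
    have h11 : γ * ((ρ ^ 2)⁻¹ * ‖f ((ρ : ℂ) • u) - (ρ : ℂ) • u‖) =
        (ρ ^ 2)⁻¹ * (γ * ‖f ((ρ : ℂ) • u) - (ρ : ℂ) • u‖) := by ring
    rw [h11, inv_mul_le_iff₀ (by positivity)]
    refine h8.trans (le_of_eq ?_)
    have : (1 - ρ) ≠ 0 := by linarith [hρ.2]
    field_simp
  exact le_of_mul_le_mul_left h10 hγ0

/-- The extremal map. -/
theorem ext_mem {A : EuclideanSpace ℂ (Fin n) →L[ℂ] EuclideanSpace ℂ (Fin n)} {m M : ℝ}
    {p q : EuclideanSpace ℂ (Fin n)} {α β : ℂ} (hd : ExtData A m M p q α β) :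
    (fun z => z + qm (sharpConst m M : ℂ) p q z) ∈ paramClass A := by
  have hder : ∀ z, HasFDerivAt (fun z => z + qm (sharpConst m M : ℂ) p q z) _ z := fun z =>
    (hasFDerivAt_id z).add (qm_hasFDerivAt (sharpConst m M : ℂ) p q z)
  refine ⟨fun z _ => (hder z).differentiableAt.differentiableWithinAt, by simp [qm_zero], ?_,
    fun z t => fieldX A (th m M α β t) p q z, fun z t => flowX A m M α p q z t, ⟨?_, ?_⟩, ?_, ?_⟩
  · rw [(hder 0).fderiv]
    ext w
    simp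
  · refine Eventually.of_forall fun t _ => ?_
    have := fieldX_cara hd (norm_th hd t)
    exact ⟨this.diff, this.zero, this.fder, this.pos⟩
  · intro z _
    exact (continuous_field A m M α β p q z).measurable.comp measurable_subtype_coe
  · intro z hz
    rw [mem_ball_zero_iff] at hz
    refine ⟨fun t ht => ?_, fun t _ => (continuous_field_flowX hd z).intervalIntegrable _ _,
      fun t _ => flowX_integral hd z t⟩
    rw [mem_ball_zero_iff]
    exact norm_flowX_lt hd hz ht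
  · apply TendstoUniformlyOn.tendstoLocallyUniformlyOn
    rw [Metric.tendstoUniformlyOn_iff]
    intro ε hε
    have hc : 0 < 2 * m - M := by linarith [hd.lt]
    have hS := sharpConst_pos hd.adm.pos hd.adm.mM hd.lt
    have h1 : Tendsto (fun t : ℝ => sharpConst m M * Real.exp (-(2 * m - M) * t)) atTop
        (𝓝 (sharpConst m M * 0)) := by
      apply Tendsto.const_mul
      have : Tendsto (fun t : ℝ => (2 * m - M) * t) atTop atTop :=
        tendsto_id.const_mul_atTop hc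
      have h2 := Real.tendsto_exp_neg_atTop_nhds_zero.comp this
      refine h2.congr fun t => ?_
      simp only [Function.comp_apply]
      congr 1
      ring
    rw [mul_zero] at h1
    filter_upwards [h1.eventually (gt_mem_nhds hε)] with t ht z hz
    rw [mem_ball_zero_iff] at hz
    have h2 : NormedSpace.exp ((t : ℂ) • A) (flowX A m M α p q z t) =
      z + qm ((sharpConst m M * (1 - Real.exp (-(2 * m - M) * t)) : ℝ) : ℂ) p q z :=
      ex_flowX hd z t
    rw [h2, dist_eq_norm, add_sub_add_left_eq_sub, qm, qm, ← sub_smul, norm_smul, hd.pn, mul_one]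
    have h3 : (sharpConst m M : ℂ) * (inner ℂ q z) ^ 2 -
        ((sharpConst m M * (1 - Real.exp (-(2 * m - M) * t)) : ℝ) : ℂ) * (inner ℂ q z) ^ 2 =
        ((sharpConst m M * Real.exp (-(2 * m - M) * t) : ℝ) : ℂ) * (inner ℂ q z) ^ 2 := by
      push_cast
      ring
    rw [h3, norm_mul, norm_pow, Complex.norm_real]
    have h4 : ‖inner ℂ q z‖ ^ 2 ≤ 1 := by
      have h5 := norm_inner_le_norm (𝕜 := ℂ) q z
      rw [hd.qn, one_mul] at h5
      exact pow_le_one₀ (norm_nonneg _) (h5.trans hz.le)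
    have h6 : 0 ≤ sharpConst m M * Real.exp (-(2 * m - M) * t) := by positivity
    rw [Real.norm_of_nonneg h6]
    calc sharpConst m M * Real.exp (-(2 * m - M) * t) * ‖inner ℂ q z‖ ^ 2 ≤
        sharpConst m M * Real.exp (-(2 * m - M) * t) * 1 := by gcongr
      _ < ε := by linarith

theorem quadPart_ext {A : EuclideanSpace ℂ (Fin n) →L[ℂ] EuclideanSpace ℂ (Fin n)} {m M : ℝ}
    {p q : EuclideanSpace ℂ (Fin n)} {α β : ℂ} (hd : ExtData A m M p q α β) :
    quadPart (fun z => z + qm (sharpConst m M : ℂ) p q z) q = (sharpConst m M : ℂ) • p := by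
  rw [quadPart_eq (ext_mem hd).1]
  have e1 : (fun t : ℂ => t • q + qm (sharpConst m M : ℂ) p q (t • q)) =
      fun t : ℂ => t ^ 1 • q + t ^ 2 • ((sharpConst m M : ℂ) • p) := by
    ext1 t
    simp only [qm, pow_one, smul_smul]
    congr 2
    rw [inner_smul_right, inner_self_eq_norm_sq_to_K, hd.qn]
    simp
    ring
  rw [e1, tc_add 2 (by fun_prop) (by fun_prop), tc_pow_smul, tc_pow_smul, if_neg (by omega),
    if_pos rfl, zero_add]

theorem exists_unit (hn : 2 ≤ n) : ∃ z : EuclideanSpace ℂ (Fin n), ‖z‖ = 1 :=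
  ⟨EuclideanSpace.single ⟨0, by omega⟩ (1 : ℂ), by simp⟩

theorem re_inner_abs_le (A : EuclideanSpace ℂ (Fin n) →L[ℂ] EuclideanSpace ℂ (Fin n))
    {z : EuclideanSpace ℂ (Fin n)} (hz : ‖z‖ = 1) : |(inner ℂ z (A z)).re| ≤ ‖A‖ := by
  refine (Complex.abs_re_le_norm _).trans ((norm_inner_le_norm (𝕜 := ℂ) _ _).trans ?_)
  have := A.le_opNorm z
  rw [hz, mul_one] at this
  rw [hz, one_mul]
  exact this

theorem bddBelow_form (A : EuclideanSpace ℂ (Fin n) →L[ℂ] EuclideanSpace ℂ (Fin n)) :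
    BddBelow {x | ∃ z : EuclideanSpace ℂ (Fin n), ‖z‖ = 1 ∧ x = (inner ℂ z (A z)).re} :=
  ⟨-‖A‖, by rintro x ⟨z, hz, rfl⟩; exact (abs_le.1 (re_inner_abs_le A hz)).1⟩

theorem bddAbove_form (A : EuclideanSpace ℂ (Fin n) →L[ℂ] EuclideanSpace ℂ (Fin n)) :
    BddAbove {x | ∃ z : EuclideanSpace ℂ (Fin n), ‖z‖ = 1 ∧ x = (inner ℂ z (A z)).re} :=
  ⟨‖A‖, by rintro x ⟨z, hz, rfl⟩; exact (abs_le.1 (re_inner_abs_le A hz)).2⟩

/-- Rescaling of quadratic form bounds. -/
theorem scale_form (A : EuclideanSpace ℂ (Fin n) →L[ℂ] EuclideanSpace ℂ (Fin n))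
    (z : EuclideanSpace ℂ (Fin n)) (hz : z ≠ 0) : ∃ u : EuclideanSpace ℂ (Fin n), ‖u‖ = 1 ∧
      (inner ℂ z (A z)).re = (inner ℂ u (A u)).re * ‖z‖ ^ 2 := by
  have hzp : 0 < ‖z‖ := norm_pos_iff.2 hz
  refine ⟨((‖z‖ : ℂ)⁻¹) • z, ?_, ?_⟩
  · rw [norm_smul, norm_inv, Complex.norm_real, norm_norm, inv_mul_cancel₀ hzp.ne']
  · have h1 : inner ℂ (((‖z‖ : ℂ)⁻¹) • z) (A (((‖z‖ : ℂ)⁻¹) • z)) =
        (((‖z‖⁻¹) ^ 2 : ℝ) : ℂ) * inner ℂ z (A z) := by
      rw [map_smul, inner_smul_left, inner_smul_right, map_inv₀, Complex.conj_ofReal]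
      push_cast
      ring
    rw [h1, Complex.re_ofReal_mul]
    field_simp

theorem adm_of_wMax (hn : 2 ≤ n) {A : EuclideanSpace ℂ (Fin n) →L[ℂ] EuclideanSpace ℂ (Fin n)}
    (h : wMax A < 2 * mMin A) : Adm A (mMin A) (wMax A) := by
  obtain ⟨z₀, hz₀⟩ := exists_unit hn
  have h1 : mMin A ≤ (inner ℂ z₀ (A z₀)).re := csInf_le (bddBelow_form A) ⟨z₀, hz₀, rfl⟩
  have h2 : (inner ℂ z₀ (A z₀)).re ≤ wMax A := le_csSup (bddAbove_form A) ⟨z₀, hz₀, rfl⟩
  refine ⟨by linarith, by linarith, ?_, ?_⟩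
  · intro z
    rcases eq_or_ne z 0 with h0 | h0
    · simp [h0]
    · obtain ⟨u, hu, hzu⟩ := scale_form A z h0
      rw [hzu]
      have : mMin A ≤ (inner ℂ u (A u)).re := csInf_le (bddBelow_form A) ⟨u, hu, rfl⟩
      gcongr
  · intro z
    rcases eq_or_ne z 0 with h0 | h0
    · simp [h0]
    · obtain ⟨u, hu, hzu⟩ := scale_form A z h0
      rw [hzu]
      have : (inner ℂ u (A u)).re ≤ wMax A := le_csSup (bddAbove_form A) ⟨u, hu, rfl⟩
      gcongr

/-- For a normal operator the numbers `m(A)` and `k_+(A)` are the extreme values of the real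
quadratic form. -/
theorem normal_ext (hn : 2 ≤ n) {A : EuclideanSpace ℂ (Fin n) →L[ℂ] EuclideanSpace ℂ (Fin n)}
    (hA : IsStarNormal A) (h : kPlus A < 2 * mMin A) :
    ∃ (p q : EuclideanSpace ℂ (Fin n)) (α β : ℂ), ExtData A (mMin A) (kPlus A) p q α β := by
  obtain ⟨m, M, p, q, α, β, hge, hle, hp, hq, hqp, hAp, hAp', hAq, hAq', hα, hβ⟩ :=
    normal_data hn (by simp) hA
  have hpp : inner ℂ p p = (1 : ℂ) := by
    rw [inner_self_eq_norm_sq_to_K, hp]; simp
  have hqq : inner ℂ q q = (1 : ℂ) := by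
    rw [inner_self_eq_norm_sq_to_K, hq]; simp
  have hm : mMin A = m := by
    have h1 : IsLeast {x | ∃ z : EuclideanSpace ℂ (Fin n), ‖z‖ = 1 ∧ x = (inner ℂ z (A z)).re} m := by
      refine ⟨⟨q, hq, ?_⟩, ?_⟩
      · rw [hAq, inner_smul_right, hqq, mul_one, hβ]
      · rintro x ⟨z, hz, rfl⟩
        have := hge z
        rwa [hz, one_pow, mul_one] at this
    exact h1.csInf_eq
  have hk : kPlus A = M := by
    have h1 : IsGreatest {x | ∃ μ : ℂ, Module.End.HasEigenvalue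
        (A : EuclideanSpace ℂ (Fin n) →ₗ[ℂ] EuclideanSpace ℂ (Fin n)) μ ∧ x = μ.re} M := by
      refine ⟨⟨α, ?_, hα.symm⟩, ?_⟩
      · apply Module.End.hasEigenvalue_of_hasEigenvector (x := p)
        refine ⟨Module.End.mem_eigenspace_iff.2 hAp, ?_⟩
        intro h0
        rw [h0, norm_zero] at hp
        norm_num at hp
      · rintro x ⟨μ, hμ, rfl⟩
        obtain ⟨y, hy⟩ := hμ.exists_hasEigenvector
        have hyA : A y = μ • y := hy.apply_eq_smul
        have hy0 : y ≠ 0 := hy.2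
        have hyn : 0 < ‖y‖ := norm_pos_iff.2 hy0
        have h2 := hle y
        have h3 : inner ℂ y (μ • y) = ((‖y‖ ^ 2 : ℝ) : ℂ) * μ := by
          rw [inner_smul_right, inner_self_eq_norm_sq_to_K]
          push_cast
          exact mul_comm _ _
        rw [hyA, h3, Complex.re_ofReal_mul] at h2
        have h4 : 0 < ‖y‖ ^ 2 := by positivity
        nlinarith
    exact h1.csSup_eq
  have hmM : m ≤ M := by
    have h1 := hge p
    have h2 := hle p
    rw [hp, one_pow, mul_one] at h1 h2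
    linarith
  rw [hm, hk] at h ⊢
  exact ⟨p, q, α, β, ⟨⟨by linarith, hmM, hge, hle⟩, h, hp, hq, hqp, hAp, hAp', hAq', hα, hβ⟩⟩

/-- The second order term in the classes `S_A^0(𝔹^n)`, `n ≥ 2`. First part: for every `A` with
`max Re ⟨Az,z⟩ < 2 m(A)` (maximum over unit vectors) one has `‖P_2(z)‖ ≤ bound (m(A)) (max ...)`
for all `f ∈ S_A^0` and unit vectors `z`. Second part: for every normal `A` with
`k_+(A) < 2 m(A)` the largest value of `‖P_2(z)‖` is exactly `bound (m(A)) (k_+(A))`. -/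
theorem result (n : ℕ) (hn : 2 ≤ n)
    (A : EuclideanSpace ℂ (Fin n) →L[ℂ] EuclideanSpace ℂ (Fin n)) :
    (wMax A < 2 * mMin A → ∀ f ∈ paramClass A, ∀ z : EuclideanSpace ℂ (Fin n), ‖z‖ = 1 →
      ‖quadPart f z‖ ≤ bound (mMin A) (wMax A)) ∧
    (IsStarNormal A → kPlus A < 2 * mMin A →
      IsGreatest {x : ℝ | ∃ f ∈ paramClass A, ∃ z : EuclideanSpace ℂ (Fin n), ‖z‖ = 1 ∧
        x = ‖quadPart f z‖} (bound (mMin A) (kPlus A))) := by
  refine ⟨fun h f hf z hz => norm_quadPart_le (adm_of_wMax hn h) h hf hz, fun hA h => ?_⟩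
  obtain ⟨p, q, α, β, hd⟩ := normal_ext hn hA h
  refine ⟨⟨_, ext_mem hd, q, hd.qn, ?_⟩, ?_⟩
  · rw [quadPart_ext hd, norm_smul, hd.pn, mul_one, Complex.norm_real,
      Real.norm_of_nonneg (sharpConst_pos hd.adm.pos hd.adm.mM hd.lt).le]
    rfl
  · rintro x ⟨f, hf, z, hz, rfl⟩
    exact norm_quadPart_le hd.adm hd.lt hf hz

end Pool.Agent.Results.MP_b9b9c0_an.SecondTermNormal
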